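import Pool.Agent.helper41.HFE.SpecD

/-!
# Row hfe:UPX (MP_3221a1_ag): the upper bound for curves with `dX f ≤ 1`
-/

set_option autoImplicit false

open Polynomial Module Pool.Agent.HFN

namespace Pool.Agent.HFE

noncomputable section

theorem UPX_chi (i j a b a' b' : ℕ) (ha : a ≤ a') (hb : b ≤ b') : chi i j a b ≤ chi i j a' b' := by
  unfold chi
  refine Nat.sub_le_sub_left ?_ _
  exact Nat.mul_le_mul (by omega) (by omega)

theorem UPX_ph (n : ℕ) : ph (min 2 n) = ph n := by
  rcases lt_or_ge n 2 with h | h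
  · rw [min_eq_right h.le]
  · rw [min_eq_left h]
    unfold ph
    rw [if_neg (by omega), if_neg (by omega), if_neg (by omega), if_neg (by omega)]

open Pool.Agent.helper29.JZ in
theorem UPX_Df {h h' : ℕ} (M W : Finset (Fin h × Fin h')) (a b i j ε : ℕ) (e' : Fin h → ℕ) (e : Fin h' → ℕ) (hε : ε ≤ 1) (he' : ∀ k, e' k ≤ 2) (he : ∀ m, e m ≤ 2) :
    Lm M W ε e' e ≤ chi i j (ε * a + ∑ k, e' k) (ε * b + ∑ m, e m) + Df M W a b i j := by
  have h1 : Lm M W ε e' e - chi i j (ε * a + ∑ k, e' k) (ε * b + ∑ m, e m) ≤ Df M W a b i j :=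
    Finset.le_sup (f := fun q : Fin 2 × (Fin h → Fin 3) × (Fin h' → Fin 3) =>
      Lm M W q.1 (fun k => q.2.1 k) (fun m => q.2.2 m) - chi i j (q.1 * a + ∑ k, (q.2.1 k : ℕ)) (q.1 * b + ∑ m, (q.2.2 m : ℕ)))
      (Finset.mem_univ ((⟨ε, by omega⟩, fun k => ⟨e' k, by have := he' k; omega⟩, fun m => ⟨e m, by have := he m; omega⟩) : Fin 2 × (Fin h → Fin 3) × (Fin h' → Fin 3)))
  omega

open Pool.Agent.helper29.JZ in
theorem UPX_key (hLAP : LAP_stmt) {h h' : ℕ} (x : Fin h → ℂ) (y : Fin h' → ℂ) (M W : Finset (Fin h × Fin h')) (a b i j : ℕ) (hx : Function.Injective x)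
    (hy : Function.Injective y) (f : AA) (ε : ℕ) (e' : Fin h → ℕ) (e : Fin h' → ℕ) (hε : ε ≤ 1) (he' : ∀ k, e' k ≤ 2) (he : ∀ m, e m ≤ 2)
    (hod : ∀ p ∈ M, od f (x p.1, y p.2) = min 2 ((if p ∈ W then ε else 0) + e' p.1 + e p.2)) (ha : ε * a + ∑ k, e' k ≤ dX f) (hb : ε * b + ∑ m, e m ≤ dY f) :
    La (ZZ x y M) f ≤ chi i j (dX f) (dY f) + Df M W a b i j := by
  have h1 : La (ZZ x y M) f = Lm M W ε e' e := by
    rw [hLAP]
    unfold ZZ
    rw [Finset.sum_image]
    · unfold Lm
      refine Finset.sum_congr rfl fun p hp => ?_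
      rw [hod p hp, UPX_ph]
    · intro p _ q _ hpq
      have h2 := Prod.ext_iff.1 hpq
      exact Prod.ext (hx h2.1) (hy h2.2)
  rw [h1]
  exact (UPX_Df M W a b i j ε e' e hε he' he).trans (Nat.add_le_add_right (UPX_chi i j _ _ _ _ ha hb) _)

/-- a polynomial of degree one in `x` only -/
theorem UPX_lin (g : AA) (hx : dX g = 1) (hy : dY g = 0) : ∃ α : ℂ, ∀ z : ℂ × ℂ, od g z = if z.1 = α then 1 else 0 := by
  classical
  obtain ⟨p, rfl⟩ : ∃ p : ℂ[X], C p = g := ⟨g.coeff 0, (eq_C_of_natDegree_eq_zero hy).symm⟩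
  rw [dX_C] at hx
  have h1 : p = C (p.coeff 1) * X + C (p.coeff 0) := eq_X_add_C_of_natDegree_le_one hx.le
  have h2 : p.coeff 1 ≠ 0 := by
    have : p.leadingCoeff ≠ 0 := by
      rw [Ne, leadingCoeff_eq_zero]
      intro h
      rw [h, natDegree_zero] at hx
      exact zero_ne_one hx
    rwa [leadingCoeff, hx] at this
  obtain ⟨c1, hc1⟩ : ∃ c, c = p.coeff 1 := ⟨_, rfl⟩
  obtain ⟨c0, hc0⟩ : ∃ c, c = p.coeff 0 := ⟨_, rfl⟩
  rw [← hc1, ← hc0] at h1
  rw [← hc1] at h2
  clear hc1 hc0
  refine ⟨-c0 / c1, fun z => ?_⟩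
  have hev : ev z (C p) = 0 ↔ z.1 = -c0 / c1 := by
    rw [ev_C, h1, eval_add, eval_mul, eval_C, eval_C, eval_X, eq_div_iff h2]
    constructor
    · intro h
      linear_combination h
    · intro h
      linear_combination h
  have hdb : ¬ Db z (C p) := by
    intro h
    have h3 := h.2.1
    rw [Dx_C, ev_C, h1, derivative_add, derivative_C_mul, derivative_X, derivative_C, add_zero, mul_one, eval_C] at h3
    exact h2 h3
  unfold od
  rw [if_neg hdb]
  by_cases h : z.1 = -c0 / c1
  · rw [if_pos (hev.2 h), if_pos h]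
  · rw [if_neg fun h' => h (hev.1 h'), if_neg h]

open Pool.Agent.helper29.JZ in
theorem UPX : UPX_stmt := by
  classical
  intro hLAP hSMO hODM hFCX hROM hREL hADF hTRM hROU h h' x y M W a b hx hy hc hr hM hB i j hO f hf hfx hfy
  obtain ⟨t1, t2, -, -, -⟩ := hTRM h h' x y M hx hy hc hr hM
  obtain ⟨hA, -⟩ := hADF h h' M W a b i j
  have hAa : Aa (ZZ x y M) i ≤ Df M W a b i j := by
    rw [t2]
    exact hA
  rcases Nat.le_one_iff_eq_zero_or_eq_one.1 hfx with h0 | h1
  · have h2 := hROU (ZZ x y M) f i j hf h0 hfy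
    rw [h0]
    omega
  · obtain ⟨g, f1, hgf, hg, hgx, hf1, hf1x⟩ := hFCX f hf h1
    obtain ⟨e, he2, heod, hesum⟩ := hROM f1 hf1 hf1x
    have hes : ∑ m, e (y m) ≤ dY f1 := by
      have h2 := hesum (Finset.univ.image y)
      rwa [Finset.sum_image (fun m _ m' _ hm => hy hm)] at h2
    have hdY : dY f = dY g + dY f1 := by
      rw [hgf]
      exact dY_mul hg.ne_zero hf1
    have hodf : ∀ z, od f z = min 2 (od g z + e z.2) := fun z => by
      rw [hgf, hODM, heod]
    rcases Nat.eq_zero_or_pos (dY g) with hg0 | hgy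
    · obtain ⟨α, hα⟩ := UPX_lin g hgx hg0
      by_cases hk : ∃ k, x k = α
      · obtain ⟨k0, hk0⟩ := hk
        refine UPX_key hLAP x y M W a b i j hx hy f 0 (fun k => if k = k0 then 1 else 0) (fun m => e (y m)) (Nat.zero_le _) (fun k => ?_) (fun m => he2 _) ?_ ?_ ?_
        · split_ifs <;> omega
        · intro p _
          rw [hodf, hα]
          have h2 : (if (x p.1, y p.2).1 = α then 1 else 0) = if p.1 = k0 then 1 else 0 := by
            by_cases h3 : p.1 = k0
            · rw [if_pos h3, if_pos (by rw [h3]; exact hk0)]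
            · rw [if_neg h3, if_neg (by
                intro h4
                exact h3 (hx (h4.trans hk0.symm)))]
          rw [h2]
          simp
        · rw [zero_mul, zero_add, Finset.sum_ite_eq' Finset.univ k0, if_pos (Finset.mem_univ _), h1]
        · rw [zero_mul, zero_add, hdY]
          omega
      · refine UPX_key hLAP x y M W a b i j hx hy f 0 (fun _ => 0) (fun m => e (y m)) (Nat.zero_le _) (fun k => Nat.zero_le _) (fun m => he2 _) ?_ ?_ ?_
        · intro p _
          rw [hodf, hα]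
          rw [if_neg (show ¬ (x p.1, y p.2).1 = α from fun h2 => hk ⟨_, h2⟩)]
          simp
        · simp
        · rw [zero_mul, zero_add, hdY]
          omega
    · by_cases hLa : La (ZZ x y M) f ≤ chi i j 1 (dY f) + Aa (ZZ x y M) i
      · rw [h1]
        omega
      · have hbig : Big (ZZ x y M) g := by
          refine hREL (ZZ x y M) g f1 i j hg hgx hgy hf1 hf1x (by rw [t1]; exact hO) (by omega) ?_
          rw [← hdY, ← hgf]
          omega
        obtain ⟨b1, b2, b3⟩ := hB g hbig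
        refine UPX_key hLAP x y M W a b i j hx hy f 1 (fun _ => 0) (fun m => e (y m)) le_rfl (fun k => Nat.zero_le _) (fun m => he2 _) ?_ ?_ ?_
        · intro p hp
          rw [hodf]
          have h2 : od g (x p.1, y p.2) = if p ∈ W then 1 else 0 := by
            unfold od
            rw [if_neg (hSMO g _ hg (Or.inl hgx) (by omega) hgy)]
            by_cases h3 : p ∈ W
            · rw [if_pos h3, if_pos ((b3 p hp).1 h3)]
            · rw [if_neg h3, if_neg fun h4 => h3 ((b3 p hp).2 h4)]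
          rw [h2, add_zero]
        · rw [one_mul, Finset.sum_const_zero, add_zero, h1]
          omega
        · rw [one_mul, hdY]
          omega

end

end Pool.Agent.HFE
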